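import Pool.Agent.Q92.AR.Stm2
import Pool.Agent.Q15.GRNT

/-! # Chebotarev's theorem for finite Galois extensions of number fields (job AR-CHEB) -/

set_option autoImplicit false
set_option linter.unusedSectionVars false
set_option linter.deprecated false

namespace Pool.Agent.Q14.AR

open NumberField IsDedekindDomain Pool.Agent.Q5.BR Pool.Agent.Q92.AR Pool.Agent.W401.Cheb
  Pool.Agent.W353.NF Pool.Agent.Q92.PA

section
variable {K M : Type} [Field K] [NumberField K] [Field M] [NumberField M] [Algebra K M]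

theorem ramified_finite : {v : HeightOneSpectrum (𝓞 K) | ¬ Unramified M v}.Finite := by
  have h0 : differentIdeal (𝓞 K) (𝓞 M) ≠ ⊥ := differentIdeal_ne_bot
  have h1 : {w : HeightOneSpectrum (𝓞 M) | w.asIdeal ∣ differentIdeal (𝓞 K) (𝓞 M)}.Finite :=
    Ideal.finite_factors h0
  refine (h1.image fun w => w.under (𝓞 K)).subset ?_
  intro v hv
  have hv' : ¬ Unramified M v := hv
  unfold Unramified at hv'
  push Not at hv'
  obtain ⟨w, hw, hle⟩ := hv'
  refine ⟨w, ?_, hw⟩
  have hvm : v.asIdeal.IsMaximal := v.isMaximal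
  have h2 := pow_sub_one_dvd_differentIdeal (𝓞 K) w.asIdeal 2 v.ne_bot (Ideal.dvd_iff_le.2 hle)
  simpa using h2

/-- the restriction of a Frobenius element of the absolute Galois group -/
theorem isFrobenius_of_intertwine {v : HeightOneSpectrum (𝓞 K)} {σ : GK K} (hσ : IsFrob v σ)
    {ι : M →ₐ[K] AlgebraicClosure K} {g : M ≃ₐ[K] M}
    (hg : act K M σ ι = ι.comp (g : M →ₐ[K] M)) : IsFrobenius v g := by
  obtain ⟨Q, hQm, hQv, hQ⟩ := hσ
  have hQp : Q.IsPrime := hQm.isPrime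
  have hc : (Q.comap (oi ι)).comap (algebraMap (𝓞 K) (𝓞 M)) = v.asIdeal := by
    rw [← hQv]
    ext a
    rw [Ideal.mem_comap, Ideal.mem_comap, Ideal.mem_comap, oi_alg]
  have hp : (Q.comap (oi ι)).IsPrime := Ideal.comap_isPrime _ _
  have h0 : Q.comap (oi ι) ≠ ⊥ := by
    intro h
    apply v.ne_bot
    rw [← hc, h, ← RingHom.ker_eq_comap_bot]
    exact (RingHom.injective_iff_ker_eq_bot _).1 (FaithfulSMul.algebraMap_injective (𝓞 K) (𝓞 M))
  refine ⟨Q.comap (oi ι), hp.isMaximal h0, hc, fun x => ?_⟩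
  have hgx : IsIntegral ℤ (g (x : M)) := x.2.map g
  obtain ⟨y, hy⟩ : ∃ y : 𝓞 M, (y : M) = g (x : M) := ⟨⟨g (x : M), hgx⟩, rfl⟩
  refine ⟨y - x ^ Ideal.absNorm v.asIdeal, ?_, by rw [← hy]; rfl⟩
  rw [Ideal.mem_comap, map_sub, map_pow]
  have h1 : oi ι y = σ • oi ι x := by
    apply RingOfIntegers.ext
    have h2 : σ (ι (x : M)) = ι (g (x : M)) := DFunLike.congr_fun hg (x : M)
    rw [oi_coe, hy]
    exact h2.symm
  rw [h1]
  exact hQ _

/-- two embeddings are conjugate -/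
theorem exists_act (ι j : M →ₐ[K] AlgebraicClosure K) : ∃ σ : GK K, act K M σ ι = j := by
  let _ : Algebra M (AlgebraicClosure K) := ι.toRingHom.toAlgebra
  have : IsScalarTower K M (AlgebraicClosure K) := IsScalarTower.of_algebraMap_eq fun x =>
    (ι.commutes x).symm
  refine ⟨AlgEquiv.ofBijective (j.liftNormal (AlgebraicClosure K))
    (Algebra.IsAlgebraic.algHom_bijective _), ?_⟩
  ext x
  exact j.liftNormal_commutes (AlgebraicClosure K) x

end

theorem cheb : S_Cheb := by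
  intro F M _ _ _ _ _ _ g B hB
  have hB' : (B ∪ {v : HeightOneSpectrum (𝓞 F) | ¬ Unramified M v}).Finite :=
    hB.union ramified_finite
  have hd := Pool.Agent.Q15.GR.frob_dense _ hB'
  let ι : M →ₐ[F] AlgebraicClosure F := IsAlgClosed.lift
  obtain ⟨σ₀, hσ₀⟩ := exists_act ι (ι.comp (g : M →ₐ[F] M))
  have hO : IsOpen ((fun σ : GK F => σ₀⁻¹ * σ) ⁻¹' ((act F M).ker : Set (GK F))) :=
    (ker_act_open F M).preimage (continuous_mul_left _)
  obtain ⟨σ, hσO, v, hv, hσ⟩ := hd.inter_open_nonempty _ hO ⟨σ₀, by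
    rw [Set.mem_preimage, SetLike.mem_coe, inv_mul_cancel]
    exact (act F M).ker.one_mem⟩
  rw [Set.mem_union, not_or] at hv
  refine ⟨v, hv.1, not_not.1 hv.2, isFrobenius_of_intertwine (ι := ι) hσ ?_⟩
  rw [Set.mem_preimage, SetLike.mem_coe, MonoidHom.mem_ker, map_mul, map_inv,
    inv_mul_eq_one] at hσO
  rw [← hσO, hσ₀]

end Pool.Agent.Q14.AR
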